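import Mathlib
import Pool.Agent.R62.LamAnti

set_option autoImplicit false

/-!
Separation of partitions by `λ`-choosability: for pairwise incomparable `λ₁, λ₂, λ₃` there is a
graph that is `λ₁`- and `λ₂`-choosable but not `λ₃`-choosable, and the general form for two
disjoint sets `A`, `B` of partitions whose union is an antichain.
-/

namespace Pool.Agent.Results.MP_6532c6_co.Separation

/-- `l` is a partition of a positive integer: a nonempty finite multiset of positive integers. -/
def IsPartition (l : Multiset ℕ) : Prop := l ≠ 0 ∧ ∀ x ∈ l, 0 < x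

/-- `l'` arises from `l` by replacing one part `a` of `l` by a partition `p` of `a`. -/
def RefStep (l l' : Multiset ℕ) : Prop :=
  ∃ (s : Multiset ℕ) (a : ℕ) (p : Multiset ℕ),
    l = a ::ₘ s ∧ IsPartition p ∧ p.sum = a ∧ l' = p + s

/-- `l'` is a refinement of `l`: it arises from `l` by repeatedly replacing one part by a
partition of that part. -/
def Refines (l' l : Multiset ℕ) : Prop := Relation.ReflTransGen RefStep l l'

/-- `l ≤ l'`: writing `l = {k_1, …, k_q}`, the partition `l'` is a refinement of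
`e = {k_1 + d_1, …, k_q + d_q}` for some `d_i ≥ 0`. -/
def PLe (l l' : Multiset ℕ) : Prop :=
  ∃ e : Multiset ℕ, Multiset.Rel (fun a b => a ≤ b) l e ∧ Refines l' e

/-- `l` and `l'` are incomparable. -/
def Incomparable (l l' : Multiset ℕ) : Prop := ¬ PLe l l' ∧ ¬ PLe l' l

/-- `L` is an `l`-assignment: for `l = {k_1, …, k_q}`, the set of all colours is the union of
pairwise disjoint sets `Cl 1, …, Cl q` with `|L(v) ∩ Cl i| = k_i` for all `v` and `i`. -/
def IsAssign {V C : Type} (l : Multiset ℕ) (L : V → Finset C) : Prop :=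
  ∃ (q : ℕ) (k : Fin q → ℕ) (Cl : Fin q → Set C),
    Multiset.map k Finset.univ.val = l ∧
    (∀ i j, i ≠ j → Disjoint (Cl i) (Cl j)) ∧
    (⋃ v, (L v : Set C)) = ⋃ i, Cl i ∧
    ∀ v i, ((L v : Set C) ∩ Cl i).ncard = k i

/-- `G` is `l`-choosable: it has a proper `L`-colouring for every `l`-assignment `L`. -/
def Choosable {V : Type} (G : SimpleGraph V) (l : Multiset ℕ) : Prop :=
  ∀ (C : Type) (L : V → Finset C), IsAssign l L →
    ∃ f : V → C, (∀ v, f v ∈ L v) ∧ ∀ u v, G.Adj u v → f u ≠ f v

/-- The bridge to the library version (all definitions agree verbatim). -/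
lemma sep (A B : Set (Multiset ℕ)) (hfA : A.Finite) (hfB : B.Finite)
    (hA : ∀ l ∈ A, IsPartition l) (hB : ∀ l ∈ B, IsPartition l)
    (h : ∀ l ∈ A, ∀ l' ∈ B, ¬ PLe l l') :
    ∃ (V : Type) (_ : Fintype V) (_ : Nonempty V) (G : SimpleGraph V),
      (∀ l ∈ A, Choosable G l) ∧ ∀ l ∈ B, ¬ Choosable G l :=
  Pool.Agent.R62.Lam.exists_separating_sets A B hfA hfB hA hB h

/-- First part: Q1. Second part: Q2. -/
theorem result :
    (∀ l₁ l₂ l₃ : Multiset ℕ, IsPartition l₁ → IsPartition l₂ → IsPartition l₃ →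
      Incomparable l₁ l₂ → Incomparable l₁ l₃ → Incomparable l₂ l₃ →
      ∃ (V : Type) (_ : Fintype V) (_ : Nonempty V) (G : SimpleGraph V),
        Choosable G l₁ ∧ Choosable G l₂ ∧ ¬ Choosable G l₃) ∧
    (∀ A B : Set (Multiset ℕ), (∀ l ∈ A ∪ B, IsPartition l) → Disjoint A B →
      (∀ l ∈ A ∪ B, ∀ l' ∈ A ∪ B, l ≠ l' → Incomparable l l') →
      ∃ (V : Type) (_ : Fintype V) (_ : Nonempty V) (G : SimpleGraph V),
        (∀ l ∈ A, Choosable G l) ∧ ∀ l ∈ B, ¬ Choosable G l) := by
  constructor
  · intro l₁ l₂ l₃ h1 h2 h3 _ h13 h23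
    obtain ⟨V, iV, nV, G, hA, hB⟩ := sep {l₁, l₂} {l₃} (Set.toFinite _) (Set.toFinite _)
      (by
        intro l hl
        rcases hl with rfl | hl
        · exact h1
        · rw [Set.mem_singleton_iff] at hl
          rw [hl]; exact h2)
      (by
        intro l hl
        rw [Set.mem_singleton_iff] at hl
        rw [hl]; exact h3)
      (by
        intro l hl l' hl'
        rw [Set.mem_singleton_iff] at hl'
        rw [hl']
        rcases hl with rfl | hl
        · exact h13.1
        · rw [Set.mem_singleton_iff] at hl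
          rw [hl]; exact h23.1)
    exact ⟨V, iV, nV, G, hA l₁ (Or.inl rfl), hA l₂ (Or.inr rfl), hB l₃ rfl⟩
  · intro A B hP hd hI
    have hfin : (A ∪ B).Finite :=
      Pool.Agent.R62.Lam.antichain_finite (A ∪ B) hP (fun l hl l' hl' hne => (hI l hl l' hl' hne).1)
    refine sep A B (hfin.subset Set.subset_union_left) (hfin.subset Set.subset_union_right)
      (fun l hl => hP l (Or.inl hl)) (fun l hl => hP l (Or.inr hl)) ?_
    intro l hl l' hl'
    refine (hI l (Or.inl hl) l' (Or.inr hl') ?_).1
    rintro rfl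
    exact Set.disjoint_left.1 hd hl hl'

end Pool.Agent.Results.MP_6532c6_co.Separation
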